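import Pool.Agent.R128.FracLocalDim

set_option autoImplicit false

/-!
# The fractional local `t`-dimension of the chain with `t ^ k` elements is `k` (MP_5b7fe5_co)

The definitions (`MPF`, `Sep`, `IsFracLocalRealiser`, `localWeight`, `fldim`) are those of the
module `Pool.Agent.R128.FracLocalDim`, whose main result is the lower bound
`log_t n ≤ fldim t (Fin n)`. Together with an upper bound for the powers of `t` it gives the exact
value for all powers of `t`, and `log_t n ≤ fldim t (Fin n) < log_t n + 1` for all `n`.
-/

namespace Pool.Agent.Results.MP_5b7fe5_co.PowersOfT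

open Pool.Agent.R128.FracLocalDim

open Classical in
theorem fldim_le_of_adm {t n : ℕ} {r : ℝ} (hn : 0 < n) (h : Adm t n r) :
    fldim t (Fin n) ≤ r := by
  obtain ⟨ι, _, F, w, hw, hF, hsep, hloc⟩ := h
  apply csInf_le
  · refine ⟨0, ?_⟩
    rintro s ⟨v, hv, hs⟩
    refine le_trans ?_ (hs ⟨0, hn⟩)
    exact Finset.sum_nonneg fun f _ => hv.1 f
  · -- push the weights forward to the set of all monotone partial functions
    let g : ι → MPF t (Fin n) := fun i => ⟨F i, hF i⟩
    have key : ∀ p : MPF t (Fin n) → Prop,
        ∑ f : MPF t (Fin n) with p f, ∑ i with g i = f, w i = ∑ i with p (g i), w i := by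
      intro p
      rw [Finset.sum_filter, Finset.sum_filter]
      calc ∑ f : MPF t (Fin n), (if p f then ∑ i with g i = f, w i else 0) =
          ∑ f : MPF t (Fin n), ∑ i with g i = f, (if p (g i) then w i else 0) := by
            apply Finset.sum_congr rfl
            intro f _
            split_ifs with hp
            · apply Finset.sum_congr rfl
              intro i hi
              rw [(Finset.mem_filter.1 hi).2, if_pos hp]
            · symm
              apply Finset.sum_eq_zero
              intro i hi
              rw [(Finset.mem_filter.1 hi).2, if_neg hp]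
        _ = ∑ i, (if p (g i) then w i else 0) :=
            Finset.sum_fiberwise_of_maps_to (fun i _ => Finset.mem_univ (g i)) _
    refine ⟨fun f => ∑ i with g i = f, w i, ⟨?_, ?_⟩, ?_⟩
    · intro f
      exact Finset.sum_nonneg fun i _ => hw i
    · intro x y hxy
      rw [key fun f => Sep f.1 x y]
      exact hsep x y (not_le.1 hxy)
    · intro x
      unfold localWeight
      refine le_trans (le_of_eq ?_) (hloc x)
      convert key (fun f => f.1 x ≠ none) using 2
      · ext f
        simp only [Finset.mem_filter]
      · ext i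
        simp only [Finset.mem_filter, g]

theorem adm_t (t : ℕ) : Adm t t 1 := by
  classical
  refine ⟨Unit, inferInstance, fun _ x => some x, fun _ => 1, fun _ => zero_le_one, ?_, ?_, ?_⟩
  · intro _ x y a b hxy ha hb
    rw [← Option.some.inj ha, ← Option.some.inj hb]
    exact hxy
  · intro x y hxy
    have : (Finset.univ.filter fun _ : Unit => Sep (fun z : Fin t => some z) x y) =
        Finset.univ := by
      rw [Finset.filter_eq_self]
      intro _ _
      exact ⟨x, y, rfl, rfl, hxy⟩
    rw [this]
    simp
  · intro x
    simp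

theorem Adm.restrict {t m n : ℕ} {r : ℝ} (hmn : m ≤ n) (h : Adm t n r) : Adm t m r := by
  classical
  obtain ⟨ι, _, F, w, hw, hF, hsep, hloc⟩ := h
  refine ⟨ι, inferInstance, fun i x => F i (Fin.castLE hmn x), w, hw, ?_, ?_, ?_⟩
  · intro i x y a b hxy ha hb
    exact hF i _ _ a b hxy ha hb
  · intro x y hxy
    exact hsep _ _ hxy
  · intro x
    exact hloc _

/-- For all `t ≥ 2`: the fractional local `t`-dimension of the chain with `t ^ k` elements is `k`
for every `k`; and for every `n ≥ 1` it is at least `log_t n` and at most the least integer `k` with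
`n ≤ t ^ k` for the chain with `n` elements. -/
theorem result (t : ℕ) (ht : 2 ≤ t) :
    (∀ k : ℕ, fldim t (Fin (t ^ k)) = k) ∧
    ∀ n : ℕ, 1 ≤ n → Real.logb t n ≤ fldim t (Fin n) ∧
      ∀ k : ℕ, n ≤ t ^ k → fldim t (Fin n) ≤ k := by
  have hupper : ∀ n : ℕ, 1 ≤ n → ∀ k : ℕ, n ≤ t ^ k → fldim t (Fin n) ≤ k := by
    intro n hn k hk
    apply fldim_le_of_adm hn
    have h1 := (adm_t t).pow k
    rw [mul_one] at h1
    exact Adm.restrict hk h1
  refine ⟨fun k => ?_, fun n hn => ⟨logb_le_fldim ht hn, hupper n hn⟩⟩
  have hpos : 0 < t ^ k := pow_pos (by omega) k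
  apply le_antisymm (hupper _ hpos k le_rfl)
  have h1 := logb_le_fldim (m := t ^ k) ht hpos
  have h2 : Real.logb t ((t ^ k : ℕ) : ℝ) = k := by
    push_cast
    rw [Real.logb_pow, Real.logb_self_eq_one (by exact_mod_cast (by omega : 1 < t)), mul_one]
  rwa [h2] at h1

end Pool.Agent.Results.MP_5b7fe5_co.PowersOfT
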